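import Pool.Agent.Q116.KR.Link

set_option autoImplicit false

/-!
Zarankiewicz problem: from `K_{r,r}` to `K_{s,t}` with `s, t ≤ r` at the natural sizes.
-/

namespace Q116.KR

open Finset Filter SimpleGraph

/-- `K_{s,t}` -/
abbrev KK (s t : ℕ) : SimpleGraph (Fin s ⊕ Fin t) := completeBipartiteGraph (Fin s) (Fin t)

lemma free_of_noST {V : Type} {G : SimpleGraph V} {s t : ℕ} (h : NoST G.Adj s t) :
    (KK s t).Free G := by
  rintro ⟨f⟩
  refine h ⟨fun i => f (Sum.inl i), fun j => f (Sum.inr j), ?_, ?_, ?_⟩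
  · intro i j hij
    exact Sum.inl_injective (f.injective hij)
  · intro i j hij
    exact Sum.inr_injective (f.injective hij)
  · intro i j
    exact f.toHom.map_rel (by simp)

lemma noST_of_free {V : Type} {G : SimpleGraph V} {s t : ℕ} (h : (KK s t).Free G) :
    NoST G.Adj s t := by
  rintro ⟨a, b, ha, hb, hab⟩
  apply h
  refine ⟨⟨⟨Sum.elim a b, ?_⟩, ?_⟩⟩
  · rintro (i | i) (j | j) hij
    · simp at hij
    · exact hab i j
    · exact (hab j i).symm
    · simp at hij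
  · rintro (i | i) (j | j) hij
    · exact congrArg Sum.inl (ha hij)
    · exact absurd hij (hab i j).ne
    · exact absurd hij (hab j i).ne'
    · exact congrArg Sum.inr (hb hij)

lemma cnt_eq_ncard {A B : Type} [Fintype A] [Fintype B] (R : A → B → Prop) :
    cnt R = ({p : A × B | R p.1 p.2}.ncard : ℝ) := by
  classical
  have h : {p : A × B | R p.1 p.2}.ncard = (univ.filter (fun p : A × B => R p.1 p.2)).card := by
    rw [← Set.ncard_coe_finset]
    congr 1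
    ext p
    simp
  rw [h, ← sum_boole, Fintype.sum_prod_type_right]
  unfold cnt
  apply sum_congr rfl
  intro b _
  apply sum_congr rfl
  intro a _
  congr

lemma card_pos_of_cnt {A B : Type} [Fintype A] [Fintype B] {R : A → B → Prop} (h : 0 < cnt R) :
    0 < Fintype.card A ∧ 0 < Fintype.card B := by
  constructor
  · rw [Fintype.card_pos_iff]
    by_contra hA
    rw [not_nonempty_iff] at hA
    unfold cnt at h
    simp at h
  · rw [Fintype.card_pos_iff]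
    by_contra hA
    rw [not_nonempty_iff] at hA
    unfold cnt at h
    simp at h

/-- The statement for `K_{s,t}` and the sizes `x ^ t`, `x ^ s`. -/
def Zf (s t : ℕ) : Prop :=
  ∃ c : ℝ, 0 < c ∧ ∃ x0 : ℕ, ∀ x ≥ x0, ∃ (A B : Type) (_ : Fintype A) (_ : Fintype B)
    (R : A → B → Prop), Fintype.card A ≤ x ^ t ∧ Fintype.card B ≤ x ^ s ∧ NoST R s t ∧
    c * (x : ℝ) ^ (s + t - 1) ≤ cnt R

lemma Zf.symm {s t : ℕ} (h : Zf s t) : Zf t s := by
  obtain ⟨c, hc, x0, h⟩ := h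
  refine ⟨c, hc, x0, fun x hx => ?_⟩
  obtain ⟨A, B, iA, iB, R, h1, h2, h3, h4⟩ := h x hx
  exact ⟨B, A, iB, iA, fun b a => R a b, h2, h1, h3.flip, by rw [cnt_flip, add_comm]; exact h4⟩

lemma Zf.link {s t : ℕ} (hs : 1 ≤ s) (ht : 2 ≤ t) (h : Zf (s + 1) t) : Zf s t := by
  obtain ⟨c, hc, x0, h⟩ := h
  refine ⟨min (c ^ 2 / 4) (c / 4), by positivity, max x0 (max 1 ⌈4 / c⌉₊), fun x hx => ?_⟩
  have hx1 : x0 ≤ x := (le_max_left _ _).trans hx
  have hx2 : 1 ≤ x := (le_max_left _ _).trans ((le_max_right _ _).trans hx)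
  have hx3 : 4 / c ≤ x := (Nat.le_ceil _).trans
    (by exact_mod_cast (le_max_right _ _).trans ((le_max_right _ _).trans hx))
  obtain ⟨A, B, iA, iB, R, h1, h2, h3, h4⟩ := h x hx1
  have hxr : (1 : ℝ) ≤ x := by exact_mod_cast hx2
  have hx0 : (0 : ℝ) < x := by linarith
  have e1 : s + 1 + t - 1 = s + t := by omega
  rw [e1] at h4
  have hpos : 0 < cnt R := lt_of_lt_of_le (by positivity) h4
  obtain ⟨hA, hB⟩ := card_pos_of_cnt hpos
  have h1' : (Fintype.card A : ℝ) ≤ (x : ℝ) ^ t := by exact_mod_cast h1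
  have h2' : (Fintype.card B : ℝ) ≤ (x : ℝ) ^ (s + 1) := by exact_mod_cast h2
  have hA' : (0 : ℝ) < Fintype.card A := by exact_mod_cast hA
  have hB' : (0 : ℝ) < Fintype.card B := by exact_mod_cast hB
  have hbig : 4 * (x : ℝ) ^ (s + 1) ≤ c * (x : ℝ) ^ (s + t) := by
    have e2 : (x : ℝ) ^ (s + t) = (x : ℝ) ^ (s + 1) * (x : ℝ) ^ (t - 1) := by
      rw [← pow_add]
      congr 1
      omega
    have e3 : (x : ℝ) ≤ (x : ℝ) ^ (t - 1) := le_self_pow₀ hxr (by omega)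
    have e4 : 4 ≤ c * (x : ℝ) ^ (t - 1) := by
      rw [div_le_iff₀ hc] at hx3
      nlinarith
    rw [e2]
    have : 0 < (x : ℝ) ^ (s + 1) := by positivity
    nlinarith
  obtain ⟨A', B', iA', iB', R', g1, g2, g3, g4⟩ := exists_link R h3 (x ^ s) hpos
    (by linarith)
  refine ⟨A', B', iA', iB', R', g1.trans h1, g2, g3, le_trans ?_ g4⟩
  have e5 : (x : ℝ) ^ (s + t) = (x : ℝ) ^ (s + t - 1) * x := by
    rw [← pow_succ]
    congr 1
    omega
  apply le_min
  · refine le_trans (mul_le_mul_of_nonneg_right (min_le_left _ _) (by positivity)) ?_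
    rw [le_div_iff₀ (by positivity)]
    have k1 : (Fintype.card A : ℝ) * Fintype.card B ≤ (x : ℝ) ^ t * (x : ℝ) ^ (s + 1) := by
      gcongr
    have k2 : (x : ℝ) ^ t * (x : ℝ) ^ (s + 1) = (x : ℝ) ^ (s + t) * x := by
      rw [← pow_add, ← pow_succ]
      congr 1
      omega
    have k3 : (c * (x : ℝ) ^ (s + t)) ^ 2 ≤ cnt R ^ 2 := by gcongr
    refine le_trans ?_ k3
    calc c ^ 2 / 4 * (x : ℝ) ^ (s + t - 1) * (4 * Fintype.card A * Fintype.card B)
        = c ^ 2 * (x : ℝ) ^ (s + t - 1) * (Fintype.card A * Fintype.card B) := by ring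
      _ ≤ c ^ 2 * (x : ℝ) ^ (s + t - 1) * ((x : ℝ) ^ (s + t) * x) := by
          rw [← k2]
          gcongr
      _ = (c * (x : ℝ) ^ (s + t)) ^ 2 := by
          rw [e5]
          ring
  · refine le_trans (mul_le_mul_of_nonneg_right (min_le_right _ _) (by positivity)) ?_
    have k1 : c * (x : ℝ) ^ (s + t) / (4 * (x : ℝ) ^ (s + 1)) ≤ cnt R / (4 * Fintype.card B) := by
      gcongr
    push_cast
    refine le_trans ?_ (mul_le_mul_of_nonneg_left k1 (by positivity))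
    have k2 : (x : ℝ) ^ (s + 1) = (x : ℝ) ^ s * x := pow_succ _ _
    rw [k2, e5]
    apply le_of_eq
    field_simp

lemma Zf.down1 {s t : ℕ} (hs : 1 ≤ s) (ht : 2 ≤ t) : ∀ k : ℕ, Zf (s + k) t → Zf s t := by
  intro k
  induction k with
  | zero => exact id
  | succ k ih => exact fun h => ih (Zf.link (by omega) ht h)

lemma Zf.down {r s t : ℕ} (hs : 2 ≤ s) (ht : 2 ≤ t) (hsr : s ≤ r) (htr : t ≤ r)
    (h : Zf r r) : Zf s t := by
  have h1 : Zf s r := by
    obtain ⟨k, rfl⟩ := Nat.exists_eq_add_of_le hsr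
    exact Zf.down1 (by omega) (by omega) k h
  have h2 : Zf t s := by
    obtain ⟨k, rfl⟩ := Nat.exists_eq_add_of_le htr
    exact Zf.down1 (by omega) hs k h1.symm
  exact h2.symm

/-- The statement for `K_{s,t}` and the sizes `x ^ t`, `x ^ s`, for relations on `Fin`. -/
def Zfin (s t : ℕ) : Prop :=
  ∃ c : ℝ, 0 < c ∧ ∀ᶠ x : ℕ in atTop, ∃ R : Fin (x ^ t) → Fin (x ^ s) → Prop,
    NoST R s t ∧ c * (x : ℝ) ^ (s + t - 1) ≤ ({p : Fin (x ^ t) × Fin (x ^ s) | R p.1 p.2}.ncard : ℝ)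

lemma Zf.fin {s t : ℕ} (hs : 1 ≤ s) (ht : 1 ≤ t) (h : Zf s t) : Zfin s t := by
  classical
  obtain ⟨c, hc, x0, h⟩ := h
  refine ⟨c, hc, ?_⟩
  filter_upwards [eventually_ge_atTop x0] with x hx
  obtain ⟨A, B, iA, iB, R, h1, h2, h3, h4⟩ := h x hx
  obtain ⟨f⟩ : Nonempty (A ↪ Fin (x ^ t)) :=
    Function.Embedding.nonempty_of_card_le (by rw [Fintype.card_fin]; exact h1)
  obtain ⟨g⟩ : Nonempty (B ↪ Fin (x ^ s)) :=
    Function.Embedding.nonempty_of_card_le (by rw [Fintype.card_fin]; exact h2)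
  refine ⟨fun i j => ∃ a b, f a = i ∧ g b = j ∧ R a b, ?_, ?_⟩
  · rintro ⟨a, b, ha, hb, hab⟩
    have q1 : ∀ i, ∃ a', f a' = a i := by
      intro i
      obtain ⟨a', b', h1, -, -⟩ := hab i ⟨0, by omega⟩
      exact ⟨a', h1⟩
    have q2 : ∀ j, ∃ b', g b' = b j := by
      intro j
      obtain ⟨a', b', -, h1, -⟩ := hab ⟨0, by omega⟩ j
      exact ⟨b', h1⟩
    choose a' ha' using q1
    choose b' hb' using q2
    refine h3 ⟨a', b', ?_, ?_, ?_⟩
    · intro i j hij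
      apply ha
      rw [← ha', ← ha', hij]
    · intro i j hij
      apply hb
      rw [← hb', ← hb', hij]
    · intro i j
      obtain ⟨a'', b'', k1, k2, k3⟩ := hab i j
      rw [← ha' i] at k1
      rw [← hb' j] at k2
      rwa [f.injective k1, g.injective k2] at k3
  · rw [cnt_eq_ncard] at h4
    refine h4.trans (le_of_eq ?_)
    have : {p : Fin (x ^ t) × Fin (x ^ s) | ∃ a b, f a = p.1 ∧ g b = p.2 ∧ R a b} =
        (fun p : A × B => (f p.1, g p.2)) '' {p : A × B | R p.1 p.2} := by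
      ext ⟨i, j⟩
      constructor
      · rintro ⟨a, b, h1, h2, h3⟩
        exact ⟨(a, b), h3, by simp only [h1, h2]⟩
      · rintro ⟨⟨a, b⟩, h3, h1⟩
        exact ⟨a, b, congrArg Prod.fst h1, congrArg Prod.snd h1, h3⟩
    rw [this, Set.ncard_image_of_injective]
    rintro ⟨a, b⟩ ⟨a', b'⟩ h
    exact Prod.ext (f.injective (congrArg Prod.fst h)) (g.injective (congrArg Prod.snd h))

/-- The conjecture for `r`. -/
def Q (r : ℕ) : Prop :=
  ∃ c : ℝ, 0 < c ∧ ∀ᶠ n : ℕ in atTop,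
    c * (n : ℝ) ^ ((2 : ℝ) - 1 / (r : ℝ)) ≤ (extremalNumber n (KK r r) : ℝ)

lemma exists_graph {n m : ℕ} {H : SimpleGraph (Fin n ⊕ Fin n)} (hH : H ≠ ⊥) :
    ∃ G : SimpleGraph (Fin m), H.Free G ∧ G.edgeSet.ncard = extremalNumber m H := by
  classical
  obtain ⟨G, i, hG⟩ := exists_isExtremal_free (V := Fin m) hH
  refine ⟨G, hG.1, ?_⟩
  have := isExtremal_free_iff.1 hG
  rw [Fintype.card_fin] at this
  rw [← this.2, ← SimpleGraph.coe_edgeFinset, Set.ncard_coe_finset]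

lemma cnt_adj {n : ℕ} (G : SimpleGraph (Fin n)) : (G.edgeSet.ncard : ℝ) ≤ cnt G.Adj := by
  classical
  rw [cnt_eq_ncard]
  have h : G.edgeSet ⊆ (fun p : Fin n × Fin n => s(p.1, p.2)) '' {p : Fin n × Fin n | G.Adj p.1 p.2} := by
    intro e he
    induction e using Sym2.ind with
    | _ x y => exact ⟨(x, y), he, rfl⟩
  have h2 := (Set.ncard_le_ncard h (Set.toFinite _)).trans (Set.ncard_image_le (Set.toFinite _))
  exact_mod_cast h2

lemma KK_ne_bot {r : ℕ} (hr : 1 ≤ r) : KK r r ≠ ⊥ := by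
  intro h
  have : (KK r r).Adj (Sum.inl ⟨0, hr⟩) (Sum.inr ⟨0, hr⟩) := by simp
  rw [h] at this
  exact this

lemma Q.zf {r : ℕ} (hr : 1 ≤ r) (h : Q r) : Zf r r := by
  obtain ⟨c, hc, h⟩ := h
  obtain ⟨N, hN⟩ := eventually_atTop.1 h
  refine ⟨c, hc, max 1 N, fun x hx => ?_⟩
  have hx1 : 1 ≤ x := (le_max_left _ _).trans hx
  have hxN : N ≤ x ^ r := ((le_max_right _ _).trans hx).trans (Nat.le_self_pow (by omega) _)
  have h1 := hN (x ^ r) hxN
  obtain ⟨G, hG, hGe⟩ := exists_graph (m := x ^ r) (KK_ne_bot hr)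
  refine ⟨Fin (x ^ r), Fin (x ^ r), inferInstance, inferInstance, G.Adj, by simp, by simp,
    noST_of_free hG, ?_⟩
  refine le_trans (le_trans (le_of_eq ?_) h1) ?_
  · congr 1
    have hx0 : (0 : ℝ) < x := by exact_mod_cast hx1
    push_cast
    rw [← Real.rpow_natCast (x : ℝ) r, ← Real.rpow_mul hx0.le, ← Real.rpow_natCast]
    congr 1
    have hr0 : (r : ℝ) ≠ 0 := by
      have : (0 : ℝ) < r := by exact_mod_cast hr
      exact this.ne'
    have : ((r + r - 1 : ℕ) : ℝ) = 2 * r - 1 := by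
      rw [Nat.cast_sub (by omega)]
      push_cast
      ring
    rw [this]
    field_simp
  · rw [← hGe]
    exact cnt_adj G

lemma ext_of_rel {A B : Type} [Fintype A] [Fintype B] (R : A → B → Prop) {s n : ℕ} (hs : 1 ≤ s)
    (hR : NoST R s s) (hn : Fintype.card A + Fintype.card B ≤ n) :
    cnt R ≤ (extremalNumber n (KK s s) : ℝ) := by
  classical
  obtain ⟨e⟩ : Nonempty (A ⊕ B ↪ Fin n) :=
    Function.Embedding.nonempty_of_card_le (by rw [Fintype.card_fin, Fintype.card_sum]; exact hn)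
  let G : SimpleGraph (Fin n) := SimpleGraph.fromRel
    (fun x y => ∃ a b, x = e (Sum.inl a) ∧ y = e (Sum.inr b) ∧ R a b)
  have hlr : ∀ (a : A) (b : B), e (Sum.inl a) ≠ e (Sum.inr b) := fun a b h =>
    Sum.inl_ne_inr (e.injective h)
  have hG : ∀ x y, G.Adj x y ↔ (∃ a b, x = e (Sum.inl a) ∧ y = e (Sum.inr b) ∧ R a b) ∨
      (∃ a b, y = e (Sum.inl a) ∧ x = e (Sum.inr b) ∧ R a b) := by
    intro x y
    rw [SimpleGraph.fromRel_adj]
    constructor
    · exact fun h => h.2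
    · intro h
      refine ⟨?_, h⟩
      rcases h with ⟨a, b, h1, h2, -⟩ | ⟨a, b, h1, h2, -⟩
      · rw [h1, h2]; exact hlr a b
      · rw [h1, h2]; exact (hlr a b).symm
  have key : ∀ (a b : Fin s → Fin n), Function.Injective a → Function.Injective b →
      (∀ i j, G.Adj (a i) (b j)) → (∃ α β, a ⟨0, hs⟩ = e (Sum.inl α) ∧
        b ⟨0, hs⟩ = e (Sum.inr β) ∧ R α β) → False := by
    rintro a b ha hb hab ⟨α, β, h1, h2, -⟩
    have q1 : ∀ i, ∃ α', a i = e (Sum.inl α') := by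
      intro i
      rcases (hG _ _).1 (hab i ⟨0, hs⟩) with ⟨a', b', k1, k2, -⟩ | ⟨a', b', k1, k2, -⟩
      · exact ⟨a', k1⟩
      · exact absurd (k1.symm.trans h2) (hlr _ _)
    have q2 : ∀ j, ∃ β', b j = e (Sum.inr β') := by
      intro j
      rcases (hG _ _).1 (hab ⟨0, hs⟩ j) with ⟨a', b', k1, k2, -⟩ | ⟨a', b', k1, k2, -⟩
      · exact ⟨b', k2⟩
      · exact absurd (h1.symm.trans k2) (hlr _ _)
    choose α' hα' using q1
    choose β' hβ' using q2
    refine hR ⟨α', β', ?_, ?_, ?_⟩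
    · intro i j hij
      apply ha
      rw [hα', hα', hij]
    · intro i j hij
      apply hb
      rw [hβ', hβ', hij]
    · intro i j
      rcases (hG _ _).1 (hab i j) with ⟨a', b', k1, k2, k3⟩ | ⟨a', b', k1, k2, -⟩
      · rw [hα'] at k1
        rw [hβ'] at k2
        rwa [← Sum.inl_injective (e.injective k1), ← Sum.inr_injective (e.injective k2)] at k3
      · rw [hβ'] at k1
        exact absurd k1.symm (hlr _ _)
  have hfree : (KK s s).Free G := by
    apply free_of_noST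
    rintro ⟨a, b, ha, hb, hab⟩
    rcases (hG _ _).1 (hab ⟨0, hs⟩ ⟨0, hs⟩) with h | ⟨α, β, h1, h2, h3⟩
    · exact key a b ha hb hab h
    · exact key b a hb ha (fun i j => (hab j i).symm) ⟨α, β, h1, h2, h3⟩
  have h1 := card_edgeFinset_le_extremalNumber hfree
  rw [Fintype.card_fin] at h1
  rw [cnt_eq_ncard]
  refine le_trans ?_ (Nat.cast_le.2 h1)
  have h2 : {p : A × B | R p.1 p.2}.ncard =
      ((fun p : A × B => s(e (Sum.inl p.1), e (Sum.inr p.2))) '' {p : A × B | R p.1 p.2}).ncard := by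
    rw [Set.ncard_image_of_injective]
    rintro ⟨a, b⟩ ⟨a', b'⟩ h
    rcases Sym2.eq_iff.1 h with ⟨k1, k2⟩ | ⟨k1, k2⟩
    · exact Prod.ext (Sum.inl_injective (e.injective k1)) (Sum.inr_injective (e.injective k2))
    · exact absurd k1 (hlr _ _)
  rw [h2, Nat.cast_le, ← Set.ncard_coe_finset, SimpleGraph.coe_edgeFinset]
  apply Set.ncard_le_ncard _ (Set.toFinite _)
  rintro _ ⟨⟨a, b⟩, hab, rfl⟩
  rw [SimpleGraph.mem_edgeSet, hG]
  exact Or.inl ⟨a, b, rfl, rfl, hab⟩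

lemma Zf.q {s : ℕ} (hs : 1 ≤ s) (h : Zf s s) : Q s := by
  obtain ⟨c, hc, x0, h⟩ := h
  have hs0 : (0 : ℝ) < s := by exact_mod_cast hs
  have hexp : 0 ≤ (2 : ℝ) - 1 / s := by
    have : 1 / (s : ℝ) ≤ 1 := by
      rw [div_le_one hs0]
      exact_mod_cast hs
    linarith
  refine ⟨c / ((2 : ℝ) ^ (s + 1)) ^ ((2 : ℝ) - 1 / s), by positivity, ?_⟩
  filter_upwards [eventually_ge_atTop (2 * (max 1 x0) ^ s)] with n hn
  -- the largest `x` with `2 x ^ s ≤ n`
  obtain ⟨x, hx1, hx2, hx3⟩ : ∃ x, max 1 x0 ≤ x ∧ 2 * x ^ s ≤ n ∧ n < 2 * (x + 1) ^ s := by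
    have hP : ∃ y, n < 2 * (y + 1) ^ s := ⟨n, by
      have : n + 1 ≤ (n + 1) ^ s := Nat.le_self_pow (by omega) _
      omega⟩
    classical
    refine ⟨Nat.find hP, ?_, ?_, Nat.find_spec hP⟩
    · by_contra hlt
      push Not at hlt
      have h1 := Nat.find_spec hP
      have h2 : (Nat.find hP + 1) ^ s ≤ (max 1 x0) ^ s := Nat.pow_le_pow_left hlt s
      omega
    · have h0 : Nat.find hP ≠ 0 := by
        intro h0
        have h1 := Nat.find_spec hP
        rw [h0, zero_add, one_pow] at h1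
        have : 1 ≤ (max 1 x0) ^ s := Nat.one_le_pow _ _ (by omega)
        omega
      have := Nat.find_min hP (Nat.sub_lt (Nat.pos_of_ne_zero h0) Nat.one_pos)
      rw [Nat.sub_add_cancel (Nat.pos_of_ne_zero h0)] at this
      omega
  obtain ⟨A, B, iA, iB, R, h1, h2, h3, h4⟩ := h x ((le_max_right _ _).trans hx1)
  have h5 := ext_of_rel R hs h3 (show Fintype.card A + Fintype.card B ≤ n by omega)
  refine le_trans ?_ (h4.trans h5)
  have hx1' : (1 : ℝ) ≤ x := by exact_mod_cast (le_max_left _ _).trans hx1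
  have hx0 : (0 : ℝ) < x := by linarith
  have hn2 : (n : ℝ) ≤ (2 : ℝ) ^ (s + 1) * (x : ℝ) ^ s := by
    have e1 : (n : ℝ) ≤ 2 * ((x : ℝ) + 1) ^ s := by exact_mod_cast hx3.le
    refine e1.trans ?_
    have e2 : ((x : ℝ) + 1) ^ s ≤ (2 * x) ^ s := by
      gcongr
      linarith
    calc 2 * ((x : ℝ) + 1) ^ s ≤ 2 * (2 * x) ^ s := by linarith
      _ = _ := by rw [mul_pow, pow_succ]; ring
  have e3 : (n : ℝ) ^ ((2 : ℝ) - 1 / s) ≤
      ((2 : ℝ) ^ (s + 1)) ^ ((2 : ℝ) - 1 / s) * (x : ℝ) ^ (s + s - 1) := by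
    calc (n : ℝ) ^ ((2 : ℝ) - 1 / s) ≤ ((2 : ℝ) ^ (s + 1) * (x : ℝ) ^ s) ^ ((2 : ℝ) - 1 / s) := by
          gcongr
      _ = ((2 : ℝ) ^ (s + 1)) ^ ((2 : ℝ) - 1 / s) * ((x : ℝ) ^ s) ^ ((2 : ℝ) - 1 / s) := by
          rw [Real.mul_rpow (by positivity) (by positivity)]
      _ = _ := by
          congr 1
          rw [← Real.rpow_natCast (x : ℝ) s, ← Real.rpow_mul hx0.le, ← Real.rpow_natCast]
          congr 1
          have : ((s + s - 1 : ℕ) : ℝ) = 2 * s - 1 := by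
            rw [Nat.cast_sub (by omega)]
            push_cast
            ring
          rw [this]
          field_simp
  calc c / ((2 : ℝ) ^ (s + 1)) ^ ((2 : ℝ) - 1 / s) * (n : ℝ) ^ ((2 : ℝ) - 1 / s)
      ≤ c / ((2 : ℝ) ^ (s + 1)) ^ ((2 : ℝ) - 1 / s) *
        (((2 : ℝ) ^ (s + 1)) ^ ((2 : ℝ) - 1 / s) * (x : ℝ) ^ (s + s - 1)) := by gcongr
    _ = c * (x : ℝ) ^ (s + s - 1) := by
        have : ((2 : ℝ) ^ (s + 1)) ^ ((2 : ℝ) - 1 / s) ≠ 0 := by positivity
        field_simp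

/-- **From `K_{r,r}` to `K_{s,t}`.** -/
theorem Q.zfin {r s t : ℕ} (h : Q r) (hs : 2 ≤ s) (ht : 2 ≤ t) (hsr : s ≤ r) (htr : t ≤ r) :
    Zfin s t :=
  ((h.zf (by omega)).down hs ht hsr htr).fin (by omega) (by omega)

theorem Q.anti {r s : ℕ} (h : Q r) (hs : 2 ≤ s) (hsr : s ≤ r) : Q s :=
  ((h.zf (by omega)).down hs hs hsr hsr).q (by omega)

lemma Zfin.zf {s t : ℕ} (h : Zfin s t) : Zf s t := by
  obtain ⟨c, hc, h⟩ := h
  obtain ⟨N, hN⟩ := eventually_atTop.1 h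
  refine ⟨c, hc, N, fun x hx => ?_⟩
  obtain ⟨R, h1, h2⟩ := hN x hx
  exact ⟨Fin (x ^ t), Fin (x ^ s), inferInstance, inferInstance, R, by simp, by simp, h1,
    by rw [cnt_eq_ncard]; exact h2⟩

end Q116.KR
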