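import Mathlib

set_option autoImplicit false

/-!
Zarankiewicz problem: links of vertices in bipartite relations without `K_{s,t}`.
-/

namespace Q116.KR

open Finset

/-- There are no `s` elements of `A` and `t` elements of `B` with all the `s t` pairs in `R`. -/
def NoST {A B : Type} (R : A → B → Prop) (s t : ℕ) : Prop :=
  ¬ ∃ (a : Fin s → A) (b : Fin t → B), Function.Injective a ∧ Function.Injective b ∧
    ∀ i j, R (a i) (b j)

lemma NoST.flip {A B : Type} {R : A → B → Prop} {s t : ℕ} (h : NoST R s t) :
    NoST (fun b a => R a b) t s := by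
  rintro ⟨b, a, hb, ha, hR⟩
  exact h ⟨a, b, ha, hb, fun i j => hR j i⟩

lemma NoST.comap {A B A' B' : Type} {R : A → B → Prop} {s t : ℕ} (h : NoST R s t)
    (f : A' → A) (g : B' → B) (hf : Function.Injective f) (hg : Function.Injective g) :
    NoST (fun a b => R (f a) (g b)) s t := by
  rintro ⟨a, b, ha, hb, hR⟩
  exact h ⟨f ∘ a, g ∘ b, hf.comp ha, hg.comp hb, hR⟩

open scoped Classical in
/-- the number of pairs in the relation -/
noncomputable def cnt {A B : Type} [Fintype A] [Fintype B] (R : A → B → Prop) : ℝ :=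
  ∑ b : B, ∑ a : A, if R a b then (1 : ℝ) else 0

open scoped Classical in
lemma cnt_flip {A B : Type} [Fintype A] [Fintype B] (R : A → B → Prop) :
    cnt (fun b a => R a b) = cnt R := by
  unfold cnt
  rw [Finset.sum_comm]

/-- A subset of prescribed size with at least its share of the weight. -/
lemma exists_sub_share {B : Type} [DecidableEq B] (w : B → ℝ) (hw : ∀ b, 0 ≤ w b) :
    ∀ (N : Finset B) (m : ℕ), m ≤ N.card →
      ∃ N' ⊆ N, N'.card = m ∧ (m : ℝ) * ∑ b ∈ N, w b ≤ N.card * ∑ b ∈ N', w b := by
  intro N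
  induction hn : N.card generalizing N with
  | zero =>
    intro m hm
    have hm0 : m = 0 := by omega
    subst hm0
    exact ⟨∅, empty_subset _, rfl, by simp⟩
  | succ n ih =>
    intro m hm
    rcases Nat.lt_or_ge n m with h | h
    · have : m = n + 1 := by omega
      subst this
      exact ⟨N, Subset.refl _, hn, by push_cast; exact le_rfl⟩
    · have hne : N.Nonempty := card_pos.1 (by omega)
      obtain ⟨x, hx, hmin⟩ := exists_min_image N w hne
      have hc : (N.erase x).card = n := by rw [card_erase_of_mem hx, hn]; rfl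
      obtain ⟨N', h1, h2, h3⟩ := ih (N.erase x) hc m h
      refine ⟨N', h1.trans (erase_subset _ _), h2, ?_⟩
      have e1 : ∑ b ∈ N, w b = ∑ b ∈ N.erase x, w b + w x := by
        rw [← sum_erase_add _ _ hx]
      have e2 : (N.erase x).card • w x ≤ ∑ b ∈ N.erase x, w b :=
        card_nsmul_le_sum _ _ _ (fun b hb => hmin b (mem_of_mem_erase hb))
      rw [hc, nsmul_eq_mul] at e2
      have hm0 : (0 : ℝ) ≤ m := Nat.cast_nonneg _
      have hn0 : (0 : ℝ) ≤ n := Nat.cast_nonneg _
      have hN' : 0 ≤ ∑ b ∈ N', w b := sum_nonneg (fun b _ => hw b)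
      rcases Nat.eq_zero_or_pos n with h0 | h0
      · have : m = 0 := by omega
        subst this
        subst h0
        rw [card_eq_zero] at h2
        subst h2
        simp
      · have hnp : (0 : ℝ) < n := by exact_mod_cast h0
        rw [e1]
        have h4 : (m : ℝ) * (∑ b ∈ N.erase x, w b + w x) ≤
            m * (∑ b ∈ N.erase x, w b) * ((n + 1) / n) := by
          have : w x ≤ (∑ b ∈ N.erase x, w b) / n := by
            rw [le_div_iff₀ hnp]
            linarith
          calc (m : ℝ) * (∑ b ∈ N.erase x, w b + w x)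
              ≤ m * (∑ b ∈ N.erase x, w b + (∑ b ∈ N.erase x, w b) / n) := by gcongr
            _ = _ := by field_simp
        refine h4.trans ?_
        calc m * (∑ b ∈ N.erase x, w b) * (((n : ℝ) + 1) / n)
            ≤ (n * ∑ b ∈ N', w b) * ((n + 1) / n) := by gcongr
          _ = _ := by push_cast; field_simp

open scoped Classical in
/-- **The link of a vertex.** -/
lemma exists_link {A B : Type} [Fintype A] [Fintype B] (R : A → B → Prop) {s t : ℕ}
    (hR : NoST R (s + 1) t) (m : ℕ) (hpos : 0 < cnt R)
    (h4 : 4 * (Fintype.card B : ℝ) ≤ cnt R) :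
    ∃ (A' B' : Type) (_ : Fintype A') (_ : Fintype B') (R' : A' → B' → Prop),
      Fintype.card A' ≤ Fintype.card A ∧ Fintype.card B' ≤ m ∧ NoST R' s t ∧
      min (cnt R ^ 2 / (4 * Fintype.card A * Fintype.card B))
        (m * (cnt R / (4 * Fintype.card B))) ≤ cnt R' := by
  set e := cnt R with he
  set a : ℝ := (Fintype.card A : ℝ) with ha
  set b : ℝ := (Fintype.card B : ℝ) with hb
  let d : B → ℝ := fun β => ∑ α : A, if R α β then (1 : ℝ) else 0
  have hd0 : ∀ β, 0 ≤ d β := fun β => sum_nonneg (fun α _ => by split_ifs <;> norm_num)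
  have hsum : ∑ β, d β = e := rfl
  have hb0 : 0 < b := by
    rw [hb]
    have : Nonempty B := by
      by_contra h
      rw [not_nonempty_iff] at h
      have : cnt R = 0 := by unfold cnt; simp
      rw [← he] at this
      linarith
    exact_mod_cast Fintype.card_pos
  have ha0 : 0 < a := by
    rw [ha]
    have : Nonempty A := by
      by_contra h
      rw [not_nonempty_iff] at h
      have : cnt R = 0 := by unfold cnt; simp
      rw [← he] at this
      linarith
    exact_mod_cast Fintype.card_pos
  have hcs : e ^ 2 / b ≤ ∑ β, d β ^ 2 := by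
    rw [div_le_iff₀ hb0, ← hsum]
    have := sq_sum_le_card_mul_sum_sq (s := (univ : Finset B)) (f := d)
    rw [card_univ] at this
    linarith
  set lam := e / (2 * b) with hlam
  let w : A → B → ℝ := fun α β => if R α β then d β else 0
  let N : A → Finset B := fun α => univ.filter (fun β => R α β)
  have hNw : ∀ α, ∑ β ∈ N α, d β = ∑ β, w α β := by
    intro α
    rw [sum_filter]
  have hNc : ∀ α, ((N α).card : ℝ) = ∑ β, if R α β then (1 : ℝ) else 0 := by
    intro α
    rw [sum_boole]
  have htot : ∑ α, (∑ β ∈ N α, d β - lam * (N α).card) = ∑ β, d β ^ 2 - lam * e := by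
    rw [sum_sub_distrib, ← mul_sum]
    congr 1
    · rw [sum_congr rfl (fun α _ => hNw α), sum_comm]
      apply sum_congr rfl
      intro β _
      have : ∀ α, w α β = (if R α β then (1 : ℝ) else 0) * d β := by
        intro α
        simp only [w]
        split_ifs <;> simp
      rw [sum_congr rfl (fun α _ => this α), ← sum_mul, sq]
    · congr 1
      rw [sum_congr rfl (fun α _ => hNc α), sum_comm]
      exact hsum
  have hex : ∃ v : A, e ^ 2 / (2 * a * b) ≤ ∑ β ∈ N v, d β - lam * (N v).card := by
    by_contra hno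
    push Not at hno
    have hne : (univ : Finset A).Nonempty := by
      rw [← card_pos, card_univ]
      rw [ha] at ha0
      exact_mod_cast ha0
    have h1 := sum_lt_sum_of_nonempty hne (fun v (_ : v ∈ univ) => hno v)
    rw [htot, sum_const, card_univ, nsmul_eq_mul, ← ha] at h1
    have h2 : a * (e ^ 2 / (2 * a * b)) = e ^ 2 / (2 * b) := by field_simp
    have h3 : lam * e = e ^ 2 / (2 * b) := by rw [hlam]; field_simp
    have h5 : e ^ 2 / b = e ^ 2 / (2 * b) + e ^ 2 / (2 * b) := by field_simp; norm_num
    rw [h2, h3] at h1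
    linarith
  obtain ⟨v, hv⟩ := hex
  set E1 := ∑ β ∈ N v, d β with hE1
  set k : ℝ := ((N v).card : ℝ) with hk
  have hlam2 : 2 ≤ lam := by
    rw [hlam, le_div_iff₀ (by positivity)]
    linarith
  have hk0 : 0 ≤ k := Nat.cast_nonneg _
  have hE1a : e ^ 2 / (2 * a * b) ≤ E1 := by nlinarith
  have hq : 0 < e ^ 2 / (2 * a * b) := by positivity
  have hE1b : lam * k ≤ E1 := by linarith
  let w' : B → ℝ := fun β => ∑ α : A, if α ≠ v ∧ R α β then (1 : ℝ) else 0
  have hw'0 : ∀ β, 0 ≤ w' β := fun β => sum_nonneg (fun α _ => by split_ifs <;> norm_num)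
  have hw' : ∀ β ∈ N v, w' β = d β - 1 := by
    intro β hβ
    rw [mem_filter] at hβ
    simp only [w', d]
    rw [← add_sum_erase univ (fun α => if R α β then (1 : ℝ) else 0) (mem_univ v), if_pos hβ.2,
      ← add_sum_erase univ (fun α => if α ≠ v ∧ R α β then (1 : ℝ) else 0) (mem_univ v),
      if_neg (by simp), zero_add, add_sub_cancel_left]
    apply sum_congr rfl
    intro α hα
    rw [mem_erase] at hα
    by_cases h : R α β
    · rw [if_pos ⟨hα.1, h⟩, if_pos h]
    · rw [if_neg (fun h' => h h'.2), if_neg h]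
  have hE2 : ∑ β ∈ N v, w' β = E1 - k := by
    rw [sum_congr rfl hw', sum_sub_distrib, sum_const, nsmul_eq_mul, mul_one]
  have hE2a : E1 / 2 ≤ ∑ β ∈ N v, w' β := by
    rw [hE2]
    nlinarith
  obtain ⟨N', hN', hN'c, hN's⟩ : ∃ N' ⊆ N v, N'.card ≤ m ∧
      min (e ^ 2 / (4 * a * b)) (m * (e / (4 * b))) ≤ ∑ β ∈ N', w' β := by
    rcases Nat.le_total (N v).card m with h | h
    · refine ⟨N v, Subset.refl _, h, (min_le_left _ _).trans ?_⟩
      refine le_trans ?_ hE2a
      have : e ^ 2 / (4 * a * b) = e ^ 2 / (2 * a * b) / 2 := by field_simp; norm_num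
      rw [this]
      linarith
    · obtain ⟨N', h1, h2, h3⟩ := exists_sub_share w' hw'0 (N v) m h
      refine ⟨N', h1, h2.le, (min_le_right _ _).trans ?_⟩
      have hkpos : 0 < k := by
        rcases hk0.eq_or_lt with h0 | h0
        · exfalso
          have : (N v).card = 0 := by
            have : ((N v).card : ℝ) = 0 := by rw [← hk]; exact h0.symm
            exact_mod_cast this
          have : N v = ∅ := card_eq_zero.1 this
          rw [hE1, this, sum_empty] at hE1a
          linarith
        · exact h0
      rw [← hk] at h3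
      have h5 : (m : ℝ) * (lam * k / 2) ≤ k * ∑ β ∈ N', w' β := by
        refine le_trans ?_ h3
        gcongr
        linarith
      have h6 : k * (m * (e / (4 * b))) ≤ k * ∑ β ∈ N', w' β := by
        refine le_trans (le_of_eq ?_) h5
        rw [hlam]
        field_simp
        norm_num
      exact le_of_mul_le_mul_left h6 hkpos
  refine ⟨{α : A // α ≠ v}, {β : B // β ∈ N'}, inferInstance, inferInstance,
    fun α β => R α.1 β.1, ?_, ?_, ?_, ?_⟩
  · exact Fintype.card_subtype_le _
  · rw [Fintype.card_coe]; exact hN'c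
  · rintro ⟨x, y, hx, hy, hxy⟩
    apply hR
    refine ⟨Fin.cons v (fun i => (x i).1), fun j => (y j).1, ?_, ?_, ?_⟩
    · rw [Fin.cons_injective_iff]
      refine ⟨?_, ?_⟩
      · rintro ⟨i, hi⟩
        exact (x i).2 hi
      · intro i j hij
        exact hx (Subtype.ext hij)
    · intro i j hij
      exact hy (Subtype.ext hij)
    · intro i j
      refine Fin.cases ?_ (fun i => ?_) i
      · have := hN' (y j).2
        rw [mem_filter] at this
        simpa using this.2
      · simpa using hxy i j
  · refine hN's.trans (le_of_eq ?_)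
    unfold cnt
    rw [← sum_coe_sort N' w']
    apply sum_congr rfl
    intro β _
    simp only [w']
    rw [← Finset.sum_subtype (univ.filter (fun α => α ≠ v)) (by simp)
      (fun α => if R α β then (1 : ℝ) else 0), sum_filter]
    apply sum_congr rfl
    intro α _
    by_cases h1 : α = v
    · rw [if_neg (fun h => h.1 h1), if_neg (fun h => h h1)]
    · by_cases h2 : R α β
      · rw [if_pos ⟨h1, h2⟩, if_pos h1, if_pos h2]
      · rw [if_neg (fun h => h2 h.2), if_pos h1, if_neg h2]

end Q116.KR
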