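import Pool.Agent.TH815.GR12
import Pool.Agent.Q116.KR.Forms

set_option autoImplicit false

/-!
Graphs without `K_{r,r}`: the vertices of large degree, almost regular subgraphs.
-/

namespace Q116.KR

open Finset Filter SimpleGraph

open scoped Classical in
/-- The inequality of Kővári, Sós and Turán, for a set `H` of rows. -/
lemma kst {A B : Type} [Fintype B] (R : A → B → Prop) {s t : ℕ} (ht : 1 ≤ t)
    (hR : NoST R s t) (H : Finset A) :
    ∑ b : B, (H.filter (fun a => R a b)).card.choose s ≤ (t - 1) * H.card.choose s := by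
  have h1 := sum_card_bipartiteAbove_eq_sum_card_bipartiteBelow (s := (univ : Finset B))
    (t := H.powersetCard s) (fun (b : B) (S : Finset A) => ∀ a ∈ S, R a b)
  have h2 : ∀ b : B, (H.filter (fun a => R a b)).card.choose s =
      ((H.powersetCard s).bipartiteAbove (fun (b : B) (S : Finset A) => ∀ a ∈ S, R a b) b).card := by
    intro b
    rw [← card_powersetCard]
    congr 1
    ext S
    rw [mem_powersetCard, mem_bipartiteAbove, mem_powersetCard]
    constructor
    · rintro ⟨h, hc⟩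
      exact ⟨⟨h.trans (filter_subset _ _), hc⟩, fun a ha => (mem_filter.1 (h ha)).2⟩
    · rintro ⟨⟨h, hc⟩, h'⟩
      exact ⟨fun a ha => mem_filter.2 ⟨h ha, h' a ha⟩, hc⟩
  have h3 : ∀ S ∈ H.powersetCard s,
      ((univ : Finset B).bipartiteBelow (fun (b : B) (S : Finset A) => ∀ a ∈ S, R a b) S).card ≤
        t - 1 := by
    intro S hS
    rw [mem_powersetCard] at hS
    by_contra hlt
    push Not at hlt
    have hle : t ≤ ((univ : Finset B).bipartiteBelow
        (fun (b : B) (S : Finset A) => ∀ a ∈ S, R a b) S).card := by omega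
    obtain ⟨T, hT, hTc⟩ := exists_subset_card_eq hle
    apply hR
    refine ⟨fun i => (S.equivFin.symm (Fin.cast hS.2.symm i)).1,
      fun j => (T.equivFin.symm (Fin.cast hTc.symm j)).1, ?_, ?_, ?_⟩
    · intro i j hij
      exact (Fin.cast_injective _) (S.equivFin.symm.injective (Subtype.ext hij))
    · intro i j hij
      exact (Fin.cast_injective _) (T.equivFin.symm.injective (Subtype.ext hij))
    · intro i j
      have := hT (T.equivFin.symm (Fin.cast hTc.symm j)).2
      rw [mem_bipartiteBelow] at this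
      exact this.2 _ (S.equivFin.symm (Fin.cast hS.2.symm i)).2
  rw [sum_congr rfl (fun b _ => h2 b), h1]
  refine (sum_le_sum h3).trans ?_
  rw [sum_const, card_powersetCard, smul_eq_mul, mul_comm]

open scoped Classical in
/-- If the total degree of the rows in `H` is at least `2 s |B|`, it is at most
`2 (t |H| ^ s) ^ (1 / s) |B| ^ (1 - 1 / s)`. -/
lemma kst_sum {A B : Type} [Fintype B] (R : A → B → Prop) {s t : ℕ} (hs : 1 ≤ s) (ht : 1 ≤ t)
    (hR : NoST R s t) (H : Finset A)
    (hE : 2 * (s : ℝ) * Fintype.card B ≤ ∑ b : B, ((H.filter (fun a => R a b)).card : ℝ)) :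
    ((∑ b : B, ((H.filter (fun a => R a b)).card : ℝ)) / 2) ^ s ≤
      (t - 1 : ℕ) * (H.card : ℝ) ^ s * (Fintype.card B : ℝ) ^ (s - 1) := by
  set E := ∑ b : B, ((H.filter (fun a => R a b)).card : ℝ) with hEd
  have h1 := kst R ht hR H
  have h2 : ∑ b : B, ((((H.filter (fun a => R a b)).card + 1 - s : ℕ) : ℝ)) ^ s ≤
      (t - 1 : ℕ) * (H.card : ℝ) ^ s := by
    calc ∑ b : B, ((((H.filter (fun a => R a b)).card + 1 - s : ℕ) : ℝ)) ^ s
        ≤ ∑ b : B, ((s.factorial : ℝ) * ((H.filter (fun a => R a b)).card.choose s : ℝ)) := by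
          apply sum_le_sum
          intro b _
          have := Nat.pow_le_choose (α := ℝ) s (H.filter (fun a => R a b)).card
          rw [div_le_iff₀ (by positivity)] at this
          linarith
      _ = (s.factorial : ℝ) * ((∑ b : B, (H.filter (fun a => R a b)).card.choose s : ℕ) : ℝ) := by
          rw [← mul_sum]
          push_cast
          rfl
      _ ≤ (s.factorial : ℝ) * (((t - 1) * H.card.choose s : ℕ) : ℝ) := by gcongr
      _ = (t - 1 : ℕ) * ((s.factorial : ℝ) * (H.card.choose s : ℝ)) := by push_cast; ring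
      _ ≤ (t - 1 : ℕ) * (H.card : ℝ) ^ s := by
          have := Nat.choose_le_pow_div (α := ℝ) s H.card
          rw [le_div_iff₀ (by positivity)] at this
          gcongr
          linarith
  have h3 : E / 2 ≤ ∑ b : B, ((((H.filter (fun a => R a b)).card + 1 - s : ℕ) : ℝ)) := by
    have h4 : E - s * Fintype.card B ≤
        ∑ b : B, ((((H.filter (fun a => R a b)).card + 1 - s : ℕ) : ℝ)) := by
      have : (s : ℝ) * Fintype.card B = ∑ b : B, (s : ℝ) := by
        rw [sum_const, card_univ, nsmul_eq_mul, mul_comm]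
      rw [this, hEd, ← sum_sub_distrib]
      apply sum_le_sum
      intro b _
      have : (((H.filter (fun a => R a b)).card : ℕ) : ℝ) ≤
          (((H.filter (fun a => R a b)).card + 1 - s : ℕ) : ℝ) + s := by
        have : (H.filter (fun a => R a b)).card ≤ ((H.filter (fun a => R a b)).card + 1 - s) + s := by
          omega
        exact_mod_cast this
      linarith
    linarith
  rcases Nat.eq_zero_or_pos (Fintype.card B) with h0 | h0
  · have hB : IsEmpty B := Fintype.card_eq_zero_iff.1 h0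
    have : E = 0 := by rw [hEd]; simp
    rw [this, zero_div, zero_pow (by omega)]
    positivity
  have hn : (0 : ℝ) < Fintype.card B := by exact_mod_cast h0
  have h5 := pow_sum_div_card_le_sum_pow (s := (univ : Finset B))
    (f := fun b => (((H.filter (fun a => R a b)).card + 1 - s : ℕ) : ℝ))
    (fun b _ => Nat.cast_nonneg _) (s - 1)
  rw [card_univ, show s - 1 + 1 = s by omega] at h5
  have h6 := h5.trans h2
  rw [div_le_iff₀ (by positivity)] at h6
  have hE0 : 0 ≤ E / 2 := by
    have : 0 ≤ E := sum_nonneg (fun b _ => Nat.cast_nonneg _)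
    linarith
  exact (pow_le_pow_left₀ hE0 h3 s).trans h6

open scoped Classical in
/-- **Vertices of large degree.** -/
theorem tail {V : Type} [Fintype V] (G : SimpleGraph V) {r : ℕ} (hr : 1 ≤ r)
    (hG : (KK r r).Free G) :
    ∑ x ∈ univ.filter (fun x => 2 * (r : ℝ) * (Fintype.card V : ℝ) ^ (1 - 1 / (r : ℝ)) ≤
      ((G.neighborSet x).ncard : ℝ)), ((G.neighborSet x).ncard : ℝ) ≤
      2 * r * Fintype.card V := by
  set n : ℝ := (Fintype.card V : ℝ) with hn
  set H := univ.filter (fun x => 2 * (r : ℝ) * n ^ (1 - 1 / (r : ℝ)) ≤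
      ((G.neighborSet x).ncard : ℝ)) with hH
  by_contra hlt
  push Not at hlt
  have hdeg : ∀ x, ((G.neighborSet x).ncard : ℝ) = ∑ b : V, if G.Adj x b then (1 : ℝ) else 0 := by
    intro x
    rw [sum_boole, ← Set.ncard_coe_finset]
    congr 2
    ext b
    simp
  have hsw : ∑ x ∈ H, ((G.neighborSet x).ncard : ℝ) =
      ∑ b : V, ((H.filter (fun a => G.Adj a b)).card : ℝ) := by
    rw [sum_congr rfl (fun x _ => hdeg x), sum_comm]
    apply sum_congr rfl
    intro b _
    rw [sum_boole]
  rw [hsw] at hlt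
  have h1 := kst_sum G.Adj hr hr (noST_of_free hG) H hlt.le
  set E := ∑ b : V, ((H.filter (fun a => G.Adj a b)).card : ℝ) with hE
  have hr0 : (0 : ℝ) < r := by exact_mod_cast hr
  have hn0 : 0 ≤ n := Nat.cast_nonneg _
  have hEl : 2 * (r : ℝ) * n ^ (1 - 1 / (r : ℝ)) * H.card ≤ E := by
    rw [← hsw]
    calc 2 * (r : ℝ) * n ^ (1 - 1 / (r : ℝ)) * H.card
        = ∑ x ∈ H, 2 * (r : ℝ) * n ^ (1 - 1 / (r : ℝ)) := by
          rw [sum_const, nsmul_eq_mul, mul_comm]
      _ ≤ _ := sum_le_sum (fun x hx => (mem_filter.1 hx).2)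
  have hEpos : 0 < E := lt_of_le_of_lt (by positivity) hlt
  have hcard : 0 < H.card := by
    rw [card_pos]
    by_contra h
    rw [not_nonempty_iff_eq_empty] at h
    rw [hE, h] at hEpos
    simp at hEpos
  have hcard' : (0 : ℝ) < H.card := by exact_mod_cast hcard
  have hnpos : 0 < n := by
    rcases hn0.eq_or_lt with h | h
    · have h' : (Fintype.card V : ℝ) = 0 := h.symm
      have : Fintype.card V = 0 := by exact_mod_cast h'
      have hV : IsEmpty V := Fintype.card_eq_zero_iff.1 this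
      rw [hE] at hEpos
      simp at hEpos
    · exact h
  have h2 : (r : ℝ) ^ r * n ^ (r - 1) * (H.card : ℝ) ^ r ≤ (E / 2) ^ r := by
    have h3 : (r : ℝ) * n ^ (1 - 1 / (r : ℝ)) * H.card ≤ E / 2 := by linarith
    have h4 := pow_le_pow_left₀ (by positivity) h3 r
    refine le_trans (le_of_eq ?_) h4
    rw [mul_pow, mul_pow]
    congr 2
    rw [← Real.rpow_natCast n (r - 1), ← Real.rpow_natCast (n ^ (1 - 1 / (r : ℝ))) r,
      ← Real.rpow_mul hn0]
    congr 1
    rw [Nat.cast_sub hr]
    push_cast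
    field_simp
  have h5 := h2.trans h1
  have h6 : (r : ℝ) ^ r ≤ ((r - 1 : ℕ) : ℝ) := by
    have hp : 0 < n ^ (r - 1) * (H.card : ℝ) ^ r := by positivity
    refine le_of_mul_le_mul_right ?_ hp
    calc (r : ℝ) ^ r * (n ^ (r - 1) * (H.card : ℝ) ^ r)
        = (r : ℝ) ^ r * n ^ (r - 1) * (H.card : ℝ) ^ r := by ring
      _ ≤ _ := h5
      _ = _ := by ring
  have h7 : (r : ℝ) ≤ (r : ℝ) ^ r := by
    have : r ≤ r ^ r := Nat.le_self_pow (by omega) r
    exact_mod_cast this
  have h8 : ((r - 1 : ℕ) : ℝ) < r := by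
    have : r - 1 < r := by omega
    exact_mod_cast this
  linarith

open scoped Classical in
/-- **Almost all edges lie in an almost regular induced subgraph.** -/
theorem almost_regular {V : Type} [Fintype V] (G : SimpleGraph V) {r : ℕ} (hr : 2 ≤ r)
    (hG : (KK r r).Free G) (c η : ℝ) (hc : 0 < c) (hη : 0 < η)
    (hn : 4 * r / (η * c) ≤ (Fintype.card V : ℝ) ^ (1 - 1 / (r : ℝ)))
    (he : c * (Fintype.card V : ℝ) ^ (2 - 1 / (r : ℝ)) ≤ (G.edgeSet.ncard : ℝ)) :
    ∃ U : Finset V, (1 - η) * (2 * (G.edgeSet.ncard : ℝ)) ≤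
        ∑ x ∈ U, ((U.filter fun y => G.Adj x y).card : ℝ) ∧ ∀ x ∈ U,
      η * c / 2 * (Fintype.card V : ℝ) ^ (1 - 1 / (r : ℝ)) ≤
        ((U.filter fun y => G.Adj x y).card : ℝ) ∧
      ((G.neighborSet x).ncard : ℝ) < 2 * r * (Fintype.card V : ℝ) ^ (1 - 1 / (r : ℝ)) := by
  set n : ℝ := (Fintype.card V : ℝ) with hnd
  set D : ℝ := n ^ (1 - 1 / (r : ℝ)) with hD
  have hn0 : 0 ≤ n := Nat.cast_nonneg _
  have hr0 : (0 : ℝ) < r := by
    have : 0 < r := by omega
    exact_mod_cast this
  have hD0 : 0 < D := lt_of_lt_of_le (by positivity) hn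
  have htail := tail G (by omega) hG
  rw [← hnd, ← hD] at htail
  set H := univ.filter (fun x => 2 * (r : ℝ) * D ≤ ((G.neighborSet x).ncard : ℝ)) with hH
  let M : V → V → ℝ := fun x y => if G.Adj x y then 1 else 0
  have hMs : ∀ x y, M x y = M y x := by
    intro x y
    simp only [M, G.adj_comm x y]
  have hM0 : ∀ x, M x x = 0 := by
    intro x
    simp [M]
  have hMn : ∀ x y, 0 ≤ M x y := by
    intro x y
    simp only [M]
    split_ifs <;> norm_num
  have hrow : ∀ (x : V) (U : Finset V), ∑ y ∈ U, M x y = ((U.filter fun y => G.Adj x y).card : ℝ) := by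
    intro x U
    simp only [M]
    rw [sum_boole]
  have hdeg : ∀ x, ((G.neighborSet x).ncard : ℝ) = ∑ b : V, M x b := by
    intro x
    rw [hrow, ← Set.ncard_coe_finset]
    congr 2
    ext b
    simp
  have htot : ∑ x, ∑ y, M x y = 2 * (G.edgeSet.ncard : ℝ) := by
    rw [sum_congr rfl (fun x _ => hrow x univ)]
    have h1 : ∀ x, (univ.filter fun y => G.Adj x y).card = G.degree x := by
      intro x
      rw [← G.card_neighborFinset_eq_degree, G.neighborFinset_eq_filter]
    simp only [h1]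
    rw [← Nat.cast_sum, G.sum_degrees_eq_twice_card_edges, ← Set.ncard_coe_finset,
      G.coe_edgeFinset]
    push_cast
    rfl
  -- the mass outside `H`
  have hmass : 2 * (G.edgeSet.ncard : ℝ) - 2 * (2 * r * n) ≤ ∑ x ∈ Hᶜ, ∑ y ∈ Hᶜ, M x y := by
    have e1 : ∑ x, ∑ y, M x y = ∑ x ∈ H, ∑ y, M x y + ∑ x ∈ Hᶜ, ∑ y, M x y :=
      (sum_add_sum_compl H _).symm
    have e2 : ∑ x ∈ Hᶜ, ∑ y, M x y = ∑ x ∈ Hᶜ, ∑ y ∈ H, M x y + ∑ x ∈ Hᶜ, ∑ y ∈ Hᶜ, M x y := by
      rw [← sum_add_distrib]
      apply sum_congr rfl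
      intro x _
      exact (sum_add_sum_compl H _).symm
    have e3 : ∑ x ∈ Hᶜ, ∑ y ∈ H, M x y ≤ ∑ x ∈ H, ∑ y, M x y := by
      rw [sum_comm]
      apply sum_le_sum
      intro y _
      rw [sum_congr rfl (fun x _ => hMs x y)]
      exact sum_le_sum_of_subset_of_nonneg (subset_univ _) (fun x _ _ => hMn y x)
    have e4 : ∑ x ∈ H, ∑ y, M x y ≤ 2 * r * n := by
      rw [← sum_congr rfl (fun x _ => hdeg x)]
      exact htail
    rw [← htot]
    linarith
  obtain ⟨U, hU, hw, hdU⟩ := Pool.TH815.GR.core M hMs hM0 (η * c * D) Hᶜ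
  refine ⟨U, ?_, fun x hx => ⟨?_, ?_⟩⟩
  · have h1 : ((Hᶜ).card : ℝ) ≤ n := by
      have : (Hᶜ).card ≤ Fintype.card V := card_le_univ _
      exact Nat.cast_le.2 this
    have h2 : 0 ≤ η * c * D * U.card := by positivity
    have h3 : η * c * D * ((Hᶜ).card : ℝ) ≤ η * c * D * n :=
      mul_le_mul_of_nonneg_left h1 (by positivity)
    have hnpos : 0 < n := by
      rcases hn0.eq_or_lt with h | h
      · exfalso
        rw [hD, ← h, Real.zero_rpow] at hD0
        · exact lt_irrefl _ hD0
        · have : (1 : ℝ) < r := by exact_mod_cast hr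
          have : 1 / (r : ℝ) < 1 := by rw [div_lt_one hr0]; exact this
          linarith
      · exact h
    have h4 : n ^ (2 - 1 / (r : ℝ)) = n * D := by
      rw [hD, show (2 : ℝ) - 1 / r = 1 + (1 - 1 / r) by ring, Real.rpow_add hnpos, Real.rpow_one]
    rw [h4] at he
    have h5 : 4 * r * n ≤ η * c * D * n := by
      rw [div_le_iff₀ (by positivity)] at hn
      have : 4 * (r : ℝ) ≤ η * c * D := by linarith
      exact mul_le_mul_of_nonneg_right this hn0
    have h6 : η * (c * (n * D)) ≤ η * (G.edgeSet.ncard : ℝ) := mul_le_mul_of_nonneg_left he hη.le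
    rw [← sum_congr rfl (fun x _ => hrow x U)]
    nlinarith
  · rw [← hrow]
    refine le_trans (le_of_eq ?_) (hdU x hx)
    ring
  · have := hU hx
    rw [mem_compl, hH, mem_filter] at this
    push Not at this
    exact this (mem_univ x)

end Q116.KR
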